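import Pool.Agent.Y303.SK.XDefs
import Pool.Agent.Y448.SK.PK

/-!
# SKX-PK: the two axisymmetric packets (job of helper303; after helper448's `Y448/SK/PK.lean`)
-/

open Set Filter Topology MeasureTheory Metric

set_option autoImplicit false

namespace Pool.Agent.Y907.SKX

open Pool.Agent.Y5 (E3)
open Pool.Agent.Y303.SK
open Pool.Agent.Y448.SK

/-! ### Swirl-free fields from functions of `r²` and `z` -/

/-- the invariants of the rotations -/
noncomputable def γ (x : E3) : ℝ × ℝ := (x 0 * x 0 + x 1 * x 1, x 2)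

theorem γ_hasF (x : E3) : HasFDerivAt γ
    ((((prj 0 x) • prj 0 + (prj 0 x) • prj 0) + ((prj 1 x) • prj 1 + (prj 1 x) • prj 1)).prod
      (prj 2)) x :=
  (((prj 0).hasFDerivAt.mul (prj 0).hasFDerivAt).add
    ((prj 1).hasFDerivAt.mul (prj 1).hasFDerivAt)).prodMk (prj 2).hasFDerivAt

theorem γ_smooth : ContDiff ℝ (⊤ : ℕ∞) γ :=
  (((prj 0).contDiff.mul (prj 0).contDiff).add ((prj 1).contDiff.mul (prj 1).contDiff)).prodMk
    (prj 2).contDiff

noncomputable def D1 (G : ℝ × ℝ → ℝ) (p : ℝ × ℝ) : ℝ := fderiv ℝ G p (1, 0)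

noncomputable def D2 (G : ℝ × ℝ → ℝ) (p : ℝ × ℝ) : ℝ := fderiv ℝ G p (0, 1)

theorem fderiv_pair (G : ℝ × ℝ → ℝ) (p : ℝ × ℝ) (a b : ℝ) :
    fderiv ℝ G p (a, b) = a * D1 G p + b * D2 G p := by
  have h : ((a, b) : ℝ × ℝ) = a • ((1, 0) : ℝ × ℝ) + b • ((0, 1) : ℝ × ℝ) := by
    ext <;> simp
  rw [h, map_add, map_smul, map_smul]
  rfl

theorem g_smooth {G : ℝ × ℝ → ℝ} (hG : ContDiff ℝ (⊤ : ℕ∞) G) (i : Fin 3) :
    ContDiff ℝ (⊤ : ℕ∞) (fun x : E3 => x i * G (γ x)) :=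
  (prj i).contDiff.mul (hG.comp γ_smooth)

theorem g_fderiv {G : ℝ × ℝ → ℝ} (hG : ContDiff ℝ (⊤ : ℕ∞) G) (i : Fin 3) (x v : E3) :
    fderiv ℝ (fun x : E3 => x i * G (γ x)) x v =
      x i * ((2 * (x 0 * v 0) + 2 * (x 1 * v 1)) * D1 G (γ x) + v 2 * D2 G (γ x)) +
        G (γ x) * v i := by
  have h1 := (hG.differentiable (by simp) (γ x)).hasFDerivAt.comp x (γ_hasF x)
  have h2 := (prj i).hasFDerivAt.mul h1
  have h3 : fderiv ℝ (fun x : E3 => x i * G (γ x)) x = _ := h2.fderiv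
  rw [h3]
  show x i * (fderiv ℝ G (γ x) ((x 0 * v 0 + x 0 * v 0) + (x 1 * v 1 + x 1 * v 1), v 2)) +
    G (γ x) * v i = _
  rw [fderiv_pair]
  ring

/-- the swirl-free field of `G` -/
noncomputable def V (G : ℝ × ℝ → ℝ) (x : E3) : E3 :=
  W 0 2 (fun x => x 0 * G (γ x)) x + W 1 2 (fun x => x 1 * G (γ x)) x

section
variable {G : ℝ × ℝ → ℝ} (hG : ContDiff ℝ (⊤ : ℕ∞) G)
include hG

theorem V0 (x : E3) : (V G x) 0 = x 0 * D2 G (γ x) := by
  show (W 0 2 (fun x => x 0 * G (γ x)) x) 0 + (W 1 2 (fun x => x 1 * G (γ x)) x) 0 = _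
  rw [(W02 _ x).1, (W12 _ x).1, g_fderiv hG 0]
  simp

theorem V1 (x : E3) : (V G x) 1 = x 1 * D2 G (γ x) := by
  show (W 0 2 (fun x => x 0 * G (γ x)) x) 1 + (W 1 2 (fun x => x 1 * G (γ x)) x) 1 = _
  rw [(W02 _ x).2.1, (W12 _ x).2.1, g_fderiv hG 1]
  simp

theorem V2 (x : E3) : (V G x) 2 = -(2 * (G (γ x) + (γ x).1 * D1 G (γ x))) := by
  show (W 0 2 (fun x => x 0 * G (γ x)) x) 2 + (W 1 2 (fun x => x 1 * G (γ x)) x) 2 = _
  rw [(W02 _ x).2.2, (W12 _ x).2.2, g_fderiv hG 0, g_fderiv hG 1]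
  simp [γ]
  ring

omit hG in
theorem γ_rtz (θ : ℝ) (x : E3) : γ (rtz θ x) = γ x := by
  have h := Real.sin_sq_add_cos_sq θ
  refine Prod.ext ?_ rfl
  show (Real.cos θ * x 0 - Real.sin θ * x 1) * (Real.cos θ * x 0 - Real.sin θ * x 1) +
    (Real.sin θ * x 0 + Real.cos θ * x 1) * (Real.sin θ * x 0 + Real.cos θ * x 1) =
      x 0 * x 0 + x 1 * x 1
  have e : (Real.cos θ * x 0 - Real.sin θ * x 1) * (Real.cos θ * x 0 - Real.sin θ * x 1) +
    (Real.sin θ * x 0 + Real.cos θ * x 1) * (Real.sin θ * x 0 + Real.cos θ * x 1) =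
      (Real.sin θ ^ 2 + Real.cos θ ^ 2) * (x 0 * x 0 + x 1 * x 1) := by ring
  rw [e, h, one_mul]

theorem V_pol : Pol (V G) where
  axi := by
    intro θ x
    ext i
    fin_cases i
    · show (V G (rtz θ x)) 0 = Real.cos θ * (V G x) 0 - Real.sin θ * (V G x) 1
      rw [V0 hG, V0 hG, V1 hG, γ_rtz]
      show (Real.cos θ * x 0 - Real.sin θ * x 1) * _ = _
      ring
    · show (V G (rtz θ x)) 1 = Real.sin θ * (V G x) 0 + Real.cos θ * (V G x) 1
      rw [V1 hG, V0 hG, V1 hG, γ_rtz]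
      show (Real.sin θ * x 0 + Real.cos θ * x 1) * _ = _
      ring
    · show (V G (rtz θ x)) 2 = (V G x) 2
      rw [V2 hG, V2 hG, γ_rtz]
  swirl := by
    intro x
    rw [V0 hG, V1 hG]
    ring

theorem V_cs {C Ω : Set E3} (hC : IsCompact C) (h0 : ∀ x, x ∉ C → G (γ x) = 0) (hΩ : C ⊆ Ω) :
    CS Ω (V G) := by
  have h1 : ∀ i : Fin 3, tsupport (fun x : E3 => x i * G (γ x)) ⊆ C := by
    intro i
    refine closure_minimal (fun x hx => ?_) hC.isClosed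
    by_contra h
    apply hx
    show x i * G (γ x) = 0
    rw [h0 x h, mul_zero]
  have h2 : ∀ i : Fin 3, HasCompactSupport (fun x : E3 => x i * G (γ x)) := fun i =>
    hC.of_isClosed_subset isClosed_closure (h1 i)
  exact cs_add (W_cs 0 2 (g_smooth hG 0) (h2 0) ((h1 0).trans hΩ))
    (W_cs 1 2 (g_smooth hG 1) (h2 1) ((h1 1).trans hΩ))

end

/-! ### Sums and multiples of swirl-free fields -/

theorem rtz_add (θ : ℝ) (x y : E3) : rtz θ (x + y) = rtz θ x + rtz θ y := by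
  ext i
  fin_cases i
  · show Real.cos θ * (x 0 + y 0) - Real.sin θ * (x 1 + y 1) =
      (Real.cos θ * x 0 - Real.sin θ * x 1) + (Real.cos θ * y 0 - Real.sin θ * y 1)
    ring
  · show Real.sin θ * (x 0 + y 0) + Real.cos θ * (x 1 + y 1) =
      (Real.sin θ * x 0 + Real.cos θ * x 1) + (Real.sin θ * y 0 + Real.cos θ * y 1)
    ring
  · rfl

theorem rtz_smul (θ c : ℝ) (x : E3) : rtz θ (c • x) = c • rtz θ x := by
  ext i
  fin_cases i
  · show Real.cos θ * (c * x 0) - Real.sin θ * (c * x 1) =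
      c * (Real.cos θ * x 0 - Real.sin θ * x 1)
    ring
  · show Real.sin θ * (c * x 0) + Real.cos θ * (c * x 1) =
      c * (Real.sin θ * x 0 + Real.cos θ * x 1)
    ring
  · rfl

theorem pol_add {v w : E3 → E3} (hv : Pol v) (hw : Pol w) : Pol (fun x => v x + w x) where
  axi := fun θ x => by
    show v (rtz θ x) + w (rtz θ x) = rtz θ (v x + w x)
    rw [hv.axi, hw.axi, rtz_add]
  swirl := fun x => by
    show x 0 * (v x 1 + w x 1) - x 1 * (v x 0 + w x 0) = 0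
    have h1 := hv.swirl x
    have h2 := hw.swirl x
    linarith

theorem pol_smul {v : E3 → E3} (hv : Pol v) (c : ℝ) : Pol (fun x => c • v x) where
  axi := fun θ x => by
    show c • v (rtz θ x) = rtz θ (c • v x)
    rw [hv.axi, rtz_smul]
  swirl := fun x => by
    show x 0 * (c * v x 1) - x 1 * (c * v x 0) = 0
    have h1 := hv.swirl x
    have e : x 0 * (c * v x 1) - x 1 * (c * v x 0) = c * (x 0 * v x 1 - x 1 * v x 0) := by ring
    rw [e, h1, mul_zero]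

/-! ### Scaling -/

/-- the scaled function -/
noncomputable def gs (lm μ : ℝ) (G : ℝ × ℝ → ℝ) (p : ℝ × ℝ) : ℝ := G (lm * lm * p.1, μ * p.2)

theorem gs_smooth (lm μ : ℝ) {G : ℝ × ℝ → ℝ} (hG : ContDiff ℝ (⊤ : ℕ∞) G) :
    ContDiff ℝ (⊤ : ℕ∞) (gs lm μ G) :=
  hG.comp ((contDiff_const.mul contDiff_fst).prodMk (contDiff_const.mul contDiff_snd))

theorem gs_fderiv (lm μ : ℝ) {G : ℝ × ℝ → ℝ} (hG : ContDiff ℝ (⊤ : ℕ∞) G) (p v : ℝ × ℝ) :
    fderiv ℝ (gs lm μ G) p v = fderiv ℝ G (lm * lm * p.1, μ * p.2) (lm * lm * v.1, μ * v.2) := by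
  have h1 : HasFDerivAt (fun p : ℝ × ℝ => ((lm * lm * p.1, μ * p.2) : ℝ × ℝ))
      (((lm * lm) • ContinuousLinearMap.fst ℝ ℝ ℝ).prod (μ • ContinuousLinearMap.snd ℝ ℝ ℝ)) p :=
    (hasFDerivAt_fst.const_mul (lm * lm)).prodMk (hasFDerivAt_snd.const_mul μ)
  have h2 := (hG.differentiable (by simp) (lm * lm * p.1, μ * p.2)).hasFDerivAt.comp p h1
  have h3 : fderiv ℝ (gs lm μ G) p = _ := h2.fderiv
  rw [h3]
  rfl

/-- the linear map `diag (lm, lm, μ)` -/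
noncomputable def Ld (lm μ : ℝ) : E3 →ₗ[ℝ] E3 where
  toFun := fun x => WithLp.toLp 2 ![lm * x 0, lm * x 1, μ * x 2]
  map_add' := fun x y => by ext i; fin_cases i <;> simp <;> ring
  map_smul' := fun r x => by ext i; fin_cases i <;> simp <;> ring

theorem Ld_apply (lm μ : ℝ) (x : E3) : Ld lm μ x = WithLp.toLp 2 ![lm * x 0, lm * x 1, μ * x 2] :=
  rfl

theorem Ld_inj {lm μ : ℝ} (h1 : 0 < lm) (h2 : 0 < μ) : LinearMap.ker (Ld lm μ) = ⊥ := by
  rw [LinearMap.ker_eq_bot']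
  intro x hx
  have e : ∀ i, (Ld lm μ x) i = 0 := fun i => by rw [hx]; rfl
  have e0 : lm * x 0 = 0 := e 0
  have e1 : lm * x 1 = 0 := e 1
  have e2 : μ * x 2 = 0 := e 2
  ext i
  fin_cases i
  · exact (mul_eq_zero.1 e0).resolve_left h1.ne'
  · exact (mul_eq_zero.1 e1).resolve_left h1.ne'
  · exact (mul_eq_zero.1 e2).resolve_left h2.ne'

theorem Ld_int {lm μ : ℝ} (h1 : 0 < lm) (h2 : 0 < μ) :
    ∃ c : ℝ, 0 < c ∧ ∀ F : E3 → ℝ, ∫ x, F (Ld lm μ x) = c * ∫ x, F x := by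
  have hdet : LinearMap.det (Ld lm μ) ≠ 0 := by
    intro h
    exact absurd (Ld_inj h1 h2) (LinearMap.bot_lt_ker_of_det_eq_zero h).ne'
  have hm := Measure.map_linearMap_addHaar_eq_smul_addHaar (volume : Measure E3) hdet
  refine ⟨|(LinearMap.det (Ld lm μ))⁻¹|, abs_pos.2 (inv_ne_zero hdet), fun F => ?_⟩
  let e : E3 ≃ₗ[ℝ] E3 := LinearEquiv.ofInjectiveEndo (Ld lm μ) (LinearMap.ker_eq_bot.1 (Ld_inj h1 h2))
  let e' : E3 ≃L[ℝ] E3 := e.toContinuousLinearEquiv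
  have h3 : ∫ x, F (Ld lm μ x) = ∫ y, F y ∂(Measure.map (Ld lm μ) volume) :=
    (e'.toHomeomorph.measurableEmbedding.integral_map F).symm
  rw [h3, hm, integral_smul_measure, ENNReal.toReal_ofReal (abs_nonneg _), smul_eq_mul]

theorem γ_Ld (lm μ : ℝ) (x : E3) : γ (Ld lm μ x) = (lm * lm * (γ x).1, μ * (γ x).2) := by
  refine Prod.ext ?_ rfl
  show lm * x 0 * (lm * x 0) + lm * x 1 * (lm * x 1) = lm * lm * (x 0 * x 0 + x 1 * x 1)
  ring

/-- the two parts of the quadratic form -/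
noncomputable def PP (v : E3 → E3) : ℝ := ∫ x, (v x 0 ^ 2 + v x 1 ^ 2)

noncomputable def QQ (v : E3 → E3) : ℝ := ∫ x, v x 2 ^ 2

theorem cont_apply {Ω : Set E3} {v : E3 → E3} (h : CS Ω v) (i : Fin 3) :
    Continuous (fun x => v x i) := (prj i).continuous.comp h.smooth.continuous

theorem PP_cpt {Ω : Set E3} {v : E3 → E3} (h : CS Ω v) :
    HasCompactSupport (fun x => v x 0 ^ 2 + v x 1 ^ 2) := by
  refine h.cpt.mono fun x hx => ?_
  rw [Function.mem_support] at hx ⊢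
  intro h0
  apply hx
  rw [h0]
  simp

theorem QQ_cpt {Ω : Set E3} {v : E3 → E3} (h : CS Ω v) :
    HasCompactSupport (fun x => v x 2 ^ 2) := by
  refine h.cpt.mono fun x hx => ?_
  rw [Function.mem_support] at hx ⊢
  intro h0
  apply hx
  rw [h0]
  simp

theorem PP_cont {Ω : Set E3} {v : E3 → E3} (h : CS Ω v) :
    Continuous (fun x => v x 0 ^ 2 + v x 1 ^ 2) :=
  ((cont_apply h 0).pow 2).add ((cont_apply h 1).pow 2)

theorem QQ_cont {Ω : Set E3} {v : E3 → E3} (h : CS Ω v) : Continuous (fun x => v x 2 ^ 2) :=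
  (cont_apply h 2).pow 2

theorem PP_nonneg (v : E3 → E3) : 0 ≤ PP v := integral_nonneg fun x => by positivity

theorem QQ_nonneg (v : E3 → E3) : 0 ≤ QQ v := integral_nonneg fun x => by positivity

theorem PP_pos {Ω : Set E3} {v : E3 → E3} (h : CS Ω v) {x : E3} (hx : v x 0 ≠ 0) : 0 < PP v :=
  Continuous.integral_pos_of_hasCompactSupport_nonneg_nonzero (PP_cont h) (PP_cpt h)
    (fun x => by positivity) (x := x) (by
      have h1 : 0 < v x 0 ^ 2 := by positivity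
      have h2 : 0 ≤ v x 1 ^ 2 := sq_nonneg _
      exact (by linarith : (0 : ℝ) < v x 0 ^ 2 + v x 1 ^ 2).ne')

theorem QQ_pos {Ω : Set E3} {v : E3 → E3} (h : CS Ω v) {x : E3} (hx : v x 2 ≠ 0) : 0 < QQ v :=
  Continuous.integral_pos_of_hasCompactSupport_nonneg_nonzero (QQ_cont h) (QQ_cpt h)
    (fun x => by positivity) (x := x) (pow_ne_zero 2 hx)

/-- the quadratic form of the scaled field -/
theorem TT_gs {lm μ : ℝ} (h1 : 0 < lm) (h2 : 0 < μ) {G : ℝ × ℝ → ℝ}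
    (hG : ContDiff ℝ (⊤ : ℕ∞) G) {Ω : Set E3} (hcs : CS Ω (V G)) :
    ∃ c : ℝ, 0 < c ∧ TT (V (gs lm μ G)) = c * ((μ / lm) ^ 2 * PP (V G) - 2 * QQ (V G)) := by
  obtain ⟨c, hc, hint⟩ := Ld_int h1 h2
  refine ⟨c, hc, ?_⟩
  have hG' := gs_smooth lm μ hG
  have e1 : ∀ x, D1 (gs lm μ G) (γ x) = lm * lm * D1 G (γ (Ld lm μ x)) := by
    intro x
    unfold D1
    rw [gs_fderiv lm μ hG, γ_Ld, fderiv_pair, fderiv_pair]
    simp
  have e2 : ∀ x, D2 (gs lm μ G) (γ x) = μ * D2 G (γ (Ld lm μ x)) := by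
    intro x
    unfold D2
    rw [gs_fderiv lm μ hG, γ_Ld, fderiv_pair, fderiv_pair]
    simp
  have e3 : ∀ x, gs lm μ G (γ x) = G (γ (Ld lm μ x)) := by
    intro x
    rw [γ_Ld]
    rfl
  have h3 : ∀ x, inner ℝ (Sm (V (gs lm μ G) x)) (V (gs lm μ G) x) =
      (μ / lm) ^ 2 * (V G (Ld lm μ x) 0 ^ 2 + V G (Ld lm μ x) 1 ^ 2) -
        2 * V G (Ld lm μ x) 2 ^ 2 := by
    intro x
    rw [Sm_inner, V0 hG', V1 hG', V2 hG', V0 hG, V1 hG, V2 hG, e1, e2, e3]
    have f0 : (Ld lm μ x) 0 = lm * x 0 := rfl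
    have f1 : (Ld lm μ x) 1 = lm * x 1 := rfl
    have f2 : (γ (Ld lm μ x)).1 = lm * lm * (γ x).1 := by rw [γ_Ld]
    rw [f0, f1, f2]
    field_simp
  have h4 : TT (V (gs lm μ G)) = ∫ x, (fun y => (μ / lm) ^ 2 * (V G y 0 ^ 2 + V G y 1 ^ 2) -
        2 * V G y 2 ^ 2) (Ld lm μ x) := by
    unfold TT
    congr 1
    funext x
    exact h3 x
  rw [h4, hint (fun y => (μ / lm) ^ 2 * (V G y 0 ^ 2 + V G y 1 ^ 2) - 2 * V G y 2 ^ 2)]
  congr 1
  rw [integral_sub (((PP_cont hcs).integrable_of_hasCompactSupport (PP_cpt hcs)).const_mul _)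
    (((QQ_cont hcs).integrable_of_hasCompactSupport (QQ_cpt hcs)).const_mul _),
    integral_const_mul, integral_const_mul]
  rfl

/-! ### The inner part of the first packet -/

noncomputable def Gu (p : ℝ × ℝ) : ℝ :=
  Real.smoothTransition (9 / 5 - 64 / 5 * (p.1 + p.2 ^ 2)) * p.2

theorem Gu_smooth : ContDiff ℝ (⊤ : ℕ∞) Gu := by
  unfold Gu
  exact (Real.smoothTransition.contDiff.comp (by fun_prop)).mul contDiff_snd

theorem u0_V : u0 = V Gu := by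
  have h : ∀ i : Fin 3, gq i 2 = fun x => x i * Gu (γ x) := by
    intro i
    funext x
    unfold gq bm Gu γ
    have h1 : ‖x - 0‖ ^ 2 = x 0 * x 0 + x 1 * x 1 + x 2 ^ 2 := by
      rw [sub_zero, ← real_inner_self_eq_norm_sq, self_inner]
      ring
    rw [h1]
    ring
  funext x
  unfold u0 V
  rw [h 0, h 1]

theorem u0_pol : Pol u0 := by
  rw [u0_V]
  exact V_pol Gu_smooth

/-! ### The outer part of the first packet -/

noncomputable def Gz (p : ℝ × ℝ) : ℝ :=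
  Real.smoothTransition (1 - p.1) * Real.smoothTransition (1 - 64 * (p.2 - 3 / 4) ^ 2)

theorem Gz_smooth : ContDiff ℝ (⊤ : ℕ∞) Gz := by
  unfold Gz
  exact (Real.smoothTransition.contDiff.comp (by fun_prop)).mul
    (Real.smoothTransition.contDiff.comp (by fun_prop))

theorem Gz_zero {p : ℝ × ℝ} (h : ¬ (p.1 ≤ 1 ∧ (p.2 - 3 / 4) ^ 2 ≤ 1 / 64)) : Gz p = 0 := by
  rw [not_and_or, not_le, not_le] at h
  unfold Gz
  rcases h with h | h
  · rw [Real.smoothTransition.zero_of_nonpos (by linarith), zero_mul]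
  · rw [Real.smoothTransition.zero_of_nonpos (x := 1 - 64 * (p.2 - 3 / 4) ^ 2) (by linarith),
      mul_zero]

/-- a compact set defined by bounds for the invariants -/
theorem cpt_set (S : Set (ℝ × ℝ)) (hS : IsClosed S) (R : ℝ)
    (hR : ∀ p ∈ S, 0 ≤ p.1 → p.1 + p.2 ^ 2 ≤ R ^ 2) (hR0 : 0 ≤ R) : IsCompact (γ ⁻¹' S) := by
  refine (isCompact_closedBall (0 : E3) R).of_isClosed_subset
    (hS.preimage γ_smooth.continuous) ?_
  intro x hx
  rw [mem_closedBall, dist_eq_norm, sub_zero]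
  have h1 := hR _ hx (by
    show 0 ≤ x 0 * x 0 + x 1 * x 1
    have := mul_self_nonneg (x 0)
    have := mul_self_nonneg (x 1)
    linarith)
  have h2 : ‖x‖ ^ 2 = (γ x).1 + (γ x).2 ^ 2 := by
    rw [← real_inner_self_eq_norm_sq, self_inner]
    show _ = x 0 * x 0 + x 1 * x 1 + x 2 ^ 2
    ring
  rw [← h2] at h1
  exact (abs_le_of_sq_le_sq' h1 hR0).2

theorem closed2 {f g : ℝ × ℝ → ℝ} (hf : Continuous f) (hg : Continuous g) (a b : ℝ) :
    IsClosed {p : ℝ × ℝ | f p ≤ a ∧ g p ≤ b} :=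
  (isClosed_le hf continuous_const).inter (isClosed_le hg continuous_const)

theorem norm_γ (x : E3) : ‖x‖ ^ 2 = (γ x).1 + (γ x).2 ^ 2 := by
  rw [← real_inner_self_eq_norm_sq, self_inner]
  show _ = x 0 * x 0 + x 1 * x 1 + x 2 ^ 2
  ring

theorem γ_nonneg (x : E3) : 0 ≤ (γ x).1 := by
  show 0 ≤ x 0 * x 0 + x 1 * x 1
  have := mul_self_nonneg (x 0)
  have := mul_self_nonneg (x 1)
  linarith

/-- the point `(0, 0, 3/4)` -/
noncomputable def pz : E3 := WithLp.toLp 2 ![0, 0, 3 / 4]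

theorem Gz_cpt : IsCompact (γ ⁻¹' {p : ℝ × ℝ | p.1 ≤ 1 ∧ (p.2 - 3 / 4) ^ 2 ≤ 1 / 64}) := by
  refine cpt_set _ ?_ 2 ?_ (by norm_num)
  · exact closed2 (f := fun p => p.1) (g := fun p => (p.2 - 3 / 4) ^ 2) (by fun_prop)
      (by fun_prop) _ _
  · rintro p ⟨h1, h2⟩ _
    nlinarith

theorem Gz_cs : CS univ (V Gz) :=
  V_cs Gz_smooth Gz_cpt (fun _ hx => Gz_zero hx) (subset_univ _)

theorem Gz_QQ : 0 < QQ (V Gz) := by
  refine QQ_pos Gz_cs (x := pz) ?_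
  rw [V2 Gz_smooth]
  have h1 : γ pz = (0, 3 / 4) := by
    refine Prod.ext ?_ rfl
    show (0 : ℝ) * 0 + 0 * 0 = 0
    ring
  rw [h1]
  have h2 : Gz (0, 3 / 4) = 1 := by
    unfold Gz
    simp only
    rw [Real.smoothTransition.one_of_one_le (by norm_num),
      Real.smoothTransition.one_of_one_le (by norm_num), mul_one]
  rw [h2]
  norm_num

/-- the factor -/
noncomputable def lz : ℝ := 3 + PP (V Gz) / QQ (V Gz)

theorem lz_ge : 3 ≤ lz := by
  have := div_nonneg (PP_nonneg (V Gz)) Gz_QQ.le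
  unfold lz
  linarith

/-- the outer field -/
noncomputable def zt : E3 → E3 := V (gs lz 1 Gz)

theorem zt_TT : TT zt < 0 := by
  have hz := lz_ge
  obtain ⟨c, hc, h⟩ := TT_gs (lm := lz) (μ := 1) (by linarith) one_pos Gz_smooth Gz_cs
  unfold zt
  rw [h]
  refine mul_neg_of_pos_of_neg hc ?_
  have hQ := Gz_QQ
  have hP := PP_nonneg (V Gz)
  have h1 : QQ (V Gz) * lz = 3 * QQ (V Gz) + PP (V Gz) := by
    unfold lz
    field_simp
  have h2 : (1 / lz) ^ 2 * PP (V Gz) = PP (V Gz) / lz ^ 2 := by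
    field_simp
  rw [h2, sub_neg, div_lt_iff₀ (by positivity)]
  have h3 : 2 * QQ (V Gz) * lz ^ 2 = 2 * (QQ (V Gz) * lz) * lz := by ring
  rw [h3, h1]
  nlinarith

/-- the region of the outer field -/
noncomputable def Cz : Set E3 := γ ⁻¹' {p : ℝ × ℝ | p.1 ≤ 1 / 9 ∧ (p.2 - 3 / 4) ^ 2 ≤ 1 / 64}

theorem Cz_cpt : IsCompact Cz := by
  refine cpt_set _ ?_ 2 ?_ (by norm_num)
  · exact closed2 (f := fun p => p.1) (g := fun p => (p.2 - 3 / 4) ^ 2) (by fun_prop)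
      (by fun_prop) _ _
  · rintro p ⟨h1, h2⟩ _
    nlinarith

theorem Cz_ball {x : E3} (hx : x ∈ Cz) : 3 / 8 < ‖x‖ ∧ ‖x‖ < 1 := by
  obtain ⟨h1, h2⟩ := hx
  have h3 := γ_nonneg x
  have h4 := norm_γ x
  have h5 := abs_le_of_sq_le_sq' (show ((γ x).2 - 3 / 4) ^ 2 ≤ (1 / 8) ^ 2 by
    norm_num; norm_num at h2; exact h2) (by norm_num)
  have h6 : (5 / 8) ^ 2 ≤ (γ x).2 ^ 2 := pow_le_pow_left₀ (by norm_num) (by linarith [h5.1]) 2
  have h7 : (γ x).2 ^ 2 ≤ (7 / 8) ^ 2 :=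
    pow_le_pow_left₀ (by linarith [h5.1]) (by linarith [h5.2]) 2
  have h8 := norm_nonneg x
  constructor
  · by_contra h
    push Not at h
    have : ‖x‖ ^ 2 ≤ (3 / 8) ^ 2 := pow_le_pow_left₀ h8 h 2
    linarith
  · by_contra h
    push Not at h
    have : (1 : ℝ) ^ 2 ≤ ‖x‖ ^ 2 := pow_le_pow_left₀ (by norm_num) h 2
    linarith

theorem zt_cs : CS Cz zt := by
  refine V_cs (gs_smooth _ _ Gz_smooth) Cz_cpt ?_ subset_rfl
  intro x hx
  unfold gs
  apply Gz_zero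
  intro h
  apply hx
  refine ⟨?_, ?_⟩
  · have h1 := h.1
    simp only at h1
    have h2 := lz_ge
    have h3 := γ_nonneg x
    have h4 : 9 * (γ x).1 ≤ lz * lz * (γ x).1 := by
      apply mul_le_mul_of_nonneg_right _ h3
      nlinarith
    linarith
  · have h1 := h.2
    simp only [one_mul] at h1
    exact h1

theorem zt_pol : Pol zt := V_pol (gs_smooth _ _ Gz_smooth)

/-! ### The inner field -/

noncomputable def Gh (p : ℝ × ℝ) : ℝ :=
  Real.smoothTransition (1 - 6400 * (p.1 - 3 / 80) ^ 2) * Real.smoothTransition (1 - p.2 ^ 2)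

theorem Gh_smooth : ContDiff ℝ (⊤ : ℕ∞) Gh := by
  unfold Gh
  exact (Real.smoothTransition.contDiff.comp (by fun_prop)).mul
    (Real.smoothTransition.contDiff.comp (by fun_prop))

theorem Gh_zero {p : ℝ × ℝ} (h : ¬ ((p.1 - 3 / 80) ^ 2 ≤ 1 / 6400 ∧ p.2 ^ 2 ≤ 1)) : Gh p = 0 := by
  rw [not_and_or, not_le, not_le] at h
  unfold Gh
  rcases h with h | h
  · rw [Real.smoothTransition.zero_of_nonpos (by linarith), zero_mul]
  · rw [Real.smoothTransition.zero_of_nonpos (x := 1 - p.2 ^ 2) (by linarith), mul_zero]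

theorem Gh_cpt : IsCompact (γ ⁻¹' {p : ℝ × ℝ | (p.1 - 3 / 80) ^ 2 ≤ 1 / 6400 ∧ p.2 ^ 2 ≤ 1}) := by
  refine cpt_set _ ?_ 2 ?_ (by norm_num)
  · exact closed2 (f := fun p => (p.1 - 3 / 80) ^ 2) (g := fun p => p.2 ^ 2) (by fun_prop)
      (by fun_prop) _ _
  · rintro p ⟨h1, h2⟩ _
    nlinarith

theorem Gh_cs : CS univ (V Gh) :=
  V_cs Gh_smooth Gh_cpt (fun _ hx => Gh_zero hx) (subset_univ _)

theorem Gh_PP : 0 < PP (V Gh) := by
  obtain ⟨ρ, hρ⟩ : ∃ ρ : ℝ, ρ = Real.sqrt (3 / 80) := ⟨_, rfl⟩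
  have hρ0 : 0 < ρ := by rw [hρ]; positivity
  have hρ2 : ρ * ρ = 3 / 80 := by rw [hρ]; exact Real.mul_self_sqrt (by norm_num)
  by_contra hcon
  have hz : ∀ z : ℝ, D2 Gh (3 / 80, z) = 0 := by
    intro z
    by_contra hne
    apply hcon
    refine PP_pos Gh_cs (x := WithLp.toLp 2 ![ρ, 0, z]) ?_
    rw [V0 Gh_smooth]
    have h1 : γ (WithLp.toLp 2 ![ρ, 0, z] : E3) = (3 / 80, z) := by
      refine Prod.ext ?_ rfl
      show ρ * ρ + 0 * 0 = 3 / 80
      rw [hρ2]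
      ring
    rw [h1]
    exact mul_ne_zero hρ0.ne' hne
  have h1 : ∀ z : ℝ, HasDerivAt (fun z : ℝ => Gh (3 / 80, z)) 0 z := by
    intro z
    have h2 : HasDerivAt (fun z : ℝ => ((3 / 80, z) : ℝ × ℝ)) (0, 1) z :=
      (hasDerivAt_const z (3 / 80 : ℝ)).prodMk (hasDerivAt_id z)
    have h3 := ((Gh_smooth.differentiable (by simp) (3 / 80, z)).hasFDerivAt).comp_hasDerivAt z h2
    have h4 := hz z
    unfold D2 at h4
    rw [h4] at h3
    exact h3
  have h5 := is_const_of_deriv_eq_zero (fun z => (h1 z).differentiableAt) (fun z => (h1 z).deriv)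
    0 1
  unfold Gh at h5
  simp only at h5
  rw [Real.smoothTransition.one_of_one_le (x := 1 - 6400 * (3 / 80 - 3 / 80) ^ 2) (by norm_num),
    Real.smoothTransition.one_of_one_le (x := 1 - (0 : ℝ) ^ 2) (by norm_num),
    Real.smoothTransition.zero_of_nonpos (x := 1 - (1 : ℝ) ^ 2) (by norm_num)] at h5
  norm_num at h5

/-- the factor -/
noncomputable def lh : ℝ := 10 + QQ (V Gh) / PP (V Gh)

theorem lh_ge : 10 ≤ lh := by
  have := div_nonneg (QQ_nonneg (V Gh)) Gh_PP.le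
  unfold lh
  linarith

/-- the inner field, not normalised -/
noncomputable def hh : E3 → E3 := V (gs 1 lh Gh)

theorem hh_TT : 0 < TT hh := by
  have hz := lh_ge
  obtain ⟨c, hc, h⟩ := TT_gs (lm := 1) (μ := lh) one_pos (by linarith) Gh_smooth Gh_cs
  unfold hh
  rw [h]
  refine mul_pos hc ?_
  have hP := Gh_PP
  have hQ := QQ_nonneg (V Gh)
  have h1 : PP (V Gh) * lh = 10 * PP (V Gh) + QQ (V Gh) := by
    unfold lh
    field_simp
  have h2 : (lh / 1) ^ 2 * PP (V Gh) = (PP (V Gh) * lh) * lh := by ring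
  rw [h2, h1]
  nlinarith

/-- the region of the inner field -/
noncomputable def Ch : Set E3 :=
  γ ⁻¹' {p : ℝ × ℝ | (p.1 - 3 / 80) ^ 2 ≤ 1 / 6400 ∧ p.2 ^ 2 ≤ 1 / 100}

theorem Ch_cpt : IsCompact Ch := by
  refine cpt_set _ ?_ 2 ?_ (by norm_num)
  · exact closed2 (f := fun p => (p.1 - 3 / 80) ^ 2) (g := fun p => p.2 ^ 2) (by fun_prop)
      (by fun_prop) _ _
  · rintro p ⟨h1, h2⟩ _
    nlinarith

theorem Ch_sub : Ch ⊆ ball (0 : E3) (1 / 4) \ closedBall 0 (1 / 8) := by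
  intro x hx
  obtain ⟨h1, h2⟩ := hx
  have h4 := norm_γ x
  have h5 := abs_le_of_sq_le_sq' (show ((γ x).1 - 3 / 80) ^ 2 ≤ (1 / 80) ^ 2 by
    norm_num; norm_num at h1; exact h1) (by norm_num)
  have h6 : 0 ≤ (γ x).2 ^ 2 := sq_nonneg _
  have h8 := norm_nonneg x
  rw [Set.mem_sdiff, mem_ball, mem_closedBall, dist_eq_norm, sub_zero, not_le]
  constructor
  · by_contra h
    push Not at h
    have : (1 / 4 : ℝ) ^ 2 ≤ ‖x‖ ^ 2 := pow_le_pow_left₀ (by norm_num) h 2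
    linarith [h5.2]
  · by_contra h
    push Not at h
    have : ‖x‖ ^ 2 ≤ (1 / 8) ^ 2 := pow_le_pow_left₀ h8 h 2
    linarith [h5.1]

theorem hh_cs : CS (ball (0 : E3) (1 / 4) \ closedBall 0 (1 / 8)) hh := by
  refine V_cs (gs_smooth _ _ Gh_smooth) Ch_cpt ?_ Ch_sub
  intro x hx
  unfold gs
  apply Gh_zero
  intro h
  apply hx
  refine ⟨?_, ?_⟩
  · have h1 := h.1
    simp only [one_mul] at h1
    exact h1
  · have h1 := h.2
    simp only at h1
    have h2 := lh_ge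
    have h3 : 0 ≤ (γ x).2 ^ 2 := sq_nonneg _
    have h4 : 100 * (γ x).2 ^ 2 ≤ lh ^ 2 * (γ x).2 ^ 2 := by
      apply mul_le_mul_of_nonneg_right _ h3
      nlinarith
    have h5 : (lh * (γ x).2) ^ 2 = lh ^ 2 * (γ x).2 ^ 2 := by ring
    rw [h5] at h1
    show (γ x).2 ^ 2 ≤ 1 / 100
    linarith

theorem hh_pol : Pol hh := V_pol (gs_smooth _ _ Gh_smooth)

theorem TT_upper {Ω : Set E3} {v : E3 → E3} (h : CS Ω v) : TT v ≤ ipr v v := by
  unfold ipr TT
  refine integral_mono (int_Sm h) (int_self h) fun x => ?_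
  simp only
  rw [Sm_inner, self_inner]
  nlinarith [sq_nonneg ((v x) 2)]

theorem hh_pos : 0 < ipr hh hh := lt_of_lt_of_le hh_TT (TT_upper hh_cs)

/-! ### The packets -/

/-- the large factor -/
noncomputable def bz : ℝ := 1 + |TT u0| / (-TT zt)

theorem bz_spec : TT u0 + bz ^ 2 * TT zt < 0 := by
  have h0 : 0 < -TT zt := neg_pos.mpr zt_TT
  have h1 : 0 ≤ |TT u0| / (-TT zt) := div_nonneg (abs_nonneg _) h0.le
  have h2 : 1 ≤ bz := by
    unfold bz
    linarith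
  have h3 : bz * (-TT zt) = (-TT zt) + |TT u0| := by
    unfold bz
    rw [add_mul, one_mul, div_mul_cancel₀ _ h0.ne']
  have h4 : bz * (-TT zt) ≤ bz ^ 2 * (-TT zt) := by
    refine mul_le_mul_of_nonneg_right ?_ h0.le
    nlinarith
  have h5 := le_abs_self (TT u0)
  nlinarith

/-- the sum -/
noncomputable def vx (x : E3) : E3 := u0 x + bz • zt x

theorem vx_cs : CS (ball 0 1) vx := by
  refine cs_add (cs_mono u0_cs ?_) (cs_smul (cs_mono zt_cs ?_) bz)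
  · exact closedBall_subset_ball (by norm_num)
  · intro x hx
    rw [mem_ball, dist_eq_norm, sub_zero]
    exact (Cz_ball hx).2

theorem vx_pol : Pol vx := pol_add u0_pol (pol_smul zt_pol bz)

theorem zt_zero {x : E3} (hx : ‖x‖ ≤ 3 / 8) : zt x = 0 := by
  refine image_eq_zero_of_notMem_tsupport fun h => ?_
  exact absurd (Cz_ball (zt_cs.supp h)).1 (not_lt.mpr hx)

theorem vx_TT : TT vx = TT u0 + bz ^ 2 * TT zt := by
  rw [← TT_smul zt bz]
  unfold TT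
  rw [← integral_add (int_Sm u0_cs) (int_Sm (cs_smul zt_cs bz))]
  congr 1
  funext x
  unfold vx
  rcases le_or_gt ‖x‖ (3 / 8) with h | h
  · rw [zt_zero h]
    simp
  · rw [u0_zero h]
    simp

theorem vx_neg : TT vx < 0 := by
  rw [vx_TT]
  exact bz_spec

theorem vx_pos : 0 < ipr vx vx := by
  have h1 := TT_lower vx_cs
  have h2 := vx_neg
  linarith

/-- **the two axisymmetric packets** -/
theorem t_PKX : Pool.Agent.Y303.SK.S_PKX := by
  have ha : 0 < (√(ipr vx vx))⁻¹ := inv_pos.mpr (Real.sqrt_pos.mpr vx_pos)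
  have hb : 0 < (√(ipr hh hh))⁻¹ := inv_pos.mpr (Real.sqrt_pos.mpr hh_pos)
  refine ⟨fun x => (√(ipr vx vx))⁻¹ • vx x, fun x => (√(ipr hh hh))⁻¹ • hh x, (√(ipr vx vx))⁻¹,
    -((√(ipr vx vx))⁻¹ ^ 2 * TT vx), (√(ipr hh hh))⁻¹ ^ 2 * TT hh, 1 / 4, 1 / 8, ?_,
    pol_smul vx_pol _, pol_smul hh_pol _⟩
  exact
    { a0 := ha
      κ0 := by
        rw [neg_pos]
        exact mul_neg_of_pos_of_neg (pow_pos ha 2) vx_neg
      h0 := mul_pos (pow_pos hb 2) hh_TT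
      q'0 := by norm_num
      qq := by norm_num
      q1 := by norm_num
      Ψcs := cs_smul vx_cs _
      Ψlin := fun x hx => by
        have h1 : zt x = 0 := by
          refine zt_zero ?_
          rw [mem_ball, dist_eq_norm, sub_zero] at hx
          linarith
        show (√(ipr vx vx))⁻¹ • vx x = _
        unfold vx
        rw [h1, smul_zero, add_zero, u0_eq hx]
      Ψn := by
        rw [ipr_smul]
        exact nrm vx_pos
      Ψk := by
        rw [neg_neg]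
        exact TT_smul vx _
      Hcs := cs_smul hh_cs _
      Hn := by
        rw [ipr_smul]
        exact nrm hh_pos
      Hh := TT_smul hh _ }

end Pool.Agent.Y907.SKX
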